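import Mathlib

set_option autoImplicit false

/-!
# Erdős–Szekeres for three orders

PROOF.  For `i < j` in `Fin 3` and `x ∈ D` let `l i j x` be the largest size of a set `S ⊆ D` with
`x ∈ S`, all `y ∈ S` satisfy `f i y ≤ f i x`, and `S` is compatible for `(i,j)`
(`∀ u v ∈ S, f i u < f i v ↔ f j u < f j v`).  (`{x}` is such a set, so `l i j x ≥ 1`.)
For `x ≠ y` in `D` two of the three orders agree on the pair `x, y`: there are `i < j` such that
`f i x < f i y ∧ f j x < f j y` or `f i y < f i x ∧ f j y < f j x`.  In the first case, if `S` is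
a set for `l i j x`, then all its elements `u` have `f i u ≤ f i x < f i y` and, by compatibility
(`f i u < f i x ↔ f j u < f j x`, and `f i u = f i x` only for `u = x`), `f j u ≤ f j x < f j y`, so
`S ∪ {y}` is compatible and `l i j y > l i j x`.  Hence `x ↦ (l 0 1 x, l 0 2 x, l 1 2 x)` is
injective on `D`.  If all compatible sets had size `≤ s`, this would be an injection of `D` into
`{1..s}^3`, contradicting `s^3 < |D|`.  So some compatible set has size `≥ s+1`; take a subset of
size exactly `s+1`.
-/

namespace Pool.Tw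

/-- compatibility of a set with two orders -/
def ES3.Comp {α : Type*} (a b : α → ℕ) (S : Finset α) : Prop :=
  ∀ x ∈ S, ∀ y ∈ S, (a x < a y ↔ b x < b y)

/-- candidate sets -/
def ES3.Cand {α : Type*} (D : Finset α) (a b : α → ℕ) (x : α) (S : Finset α) : Prop :=
  S ⊆ D ∧ x ∈ S ∧ (∀ y ∈ S, a y ≤ a x) ∧ ES3.Comp a b S

open scoped Classical in
/-- the largest size of a candidate -/
noncomputable def ES3.len {α : Type*} (D : Finset α) (a b : α → ℕ) (x : α) : ℕ :=
  (D.powerset.filter (fun S => ES3.Cand D a b x S)).sup Finset.card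

theorem ES3.le_len {α : Type*} {D : Finset α} {a b : α → ℕ} {x : α} {S : Finset α}
    (h : ES3.Cand D a b x S) : S.card ≤ ES3.len D a b x := by
  classical
  unfold ES3.len
  exact Finset.le_sup (f := Finset.card)
    (Finset.mem_filter.mpr ⟨Finset.mem_powerset.mpr h.1, h⟩)

theorem ES3.cand_single {α : Type*} {D : Finset α} {a b : α → ℕ} {x : α} (hx : x ∈ D) :
    ES3.Cand D a b x {x} := by
  refine ⟨Finset.singleton_subset_iff.mpr hx, Finset.mem_singleton_self x, ?_, ?_⟩
  · intro y hy
    rw [Finset.mem_singleton] at hy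
    rw [hy]
  · intro y hy z hz
    rw [Finset.mem_singleton] at hy hz
    rw [hy, hz]
    simp

theorem ES3.exists_len {α : Type*} {D : Finset α} {a b : α → ℕ} {x : α} (hx : x ∈ D) :
    ∃ S, ES3.Cand D a b x S ∧ S.card = ES3.len D a b x := by
  classical
  have hne : (D.powerset.filter (fun S => ES3.Cand D a b x S)).Nonempty :=
    ⟨{x}, Finset.mem_filter.mpr ⟨Finset.mem_powerset.mpr (ES3.cand_single (a := a) (b := b) hx).1,
      ES3.cand_single hx⟩⟩
  obtain ⟨S, hS, hS2⟩ := Finset.exists_mem_eq_sup _ hne Finset.card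
  refine ⟨S, (Finset.mem_filter.mp hS).2, ?_⟩
  unfold ES3.len
  rw [← hS2]

theorem ES3.len_lt {α : Type*} [DecidableEq α] {D : Finset α} {a b : α → ℕ} {x y : α}
    (hx : x ∈ D) (hy : y ∈ D) (h1 : a x < a y) (h2 : b x < b y) :
    ES3.len D a b x < ES3.len D a b y := by
  obtain ⟨S, ⟨hSD, hxS, hmax, hcomp⟩, hcard⟩ := ES3.exists_len (a := a) (b := b) hx
  have hbmax : ∀ u ∈ S, b u ≤ b x := by
    intro u hu
    have h := hcomp x hxS u hu
    have h3 : ¬ a x < a u := not_lt.mpr (hmax u hu)
    rw [h] at h3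
    exact not_lt.mp h3
  have hyS : y ∉ S := fun h => absurd (hmax y h) (not_le.mpr h1)
  have hc : ES3.Cand D a b y (insert y S) := by
    refine ⟨Finset.insert_subset hy hSD, Finset.mem_insert_self y S, ?_, ?_⟩
    · intro u hu
      rcases Finset.mem_insert.mp hu with rfl | hu
      · exact le_rfl
      · exact (hmax u hu).trans h1.le
    · intro u hu v hv
      rcases Finset.mem_insert.mp hu with hu' | hu' <;>
        rcases Finset.mem_insert.mp hv with hv' | hv'
      · rw [hu', hv']; simp
      · have e1 := hmax v hv'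
        have e2 := hbmax v hv'
        rw [hu']
        constructor
        · intro h; omega
        · intro h; omega
      · have e1 := hmax u hu'
        have e2 := hbmax u hu'
        rw [hv']
        constructor
        · intro _; omega
        · intro _; omega
      · exact hcomp u hu' v hv'
  have := ES3.le_len hc
  rw [Finset.card_insert_of_notMem hyS, hcard] at this
  omega

theorem es3 {α : Type*} [DecidableEq α] (D : Finset α) (f : Fin 3 → α → ℕ)
    (hinj : ∀ i, Set.InjOn (f i) (D : Set α)) (s : ℕ) (hD : s ^ 3 < D.card) :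
    ∃ i j : Fin 3, i < j ∧ ∃ S ⊆ D, S.card = s + 1 ∧
      ∀ x ∈ S, ∀ y ∈ S, (f i x < f i y ↔ f j x < f j y) := by
  by_contra hcon
  push Not at hcon
  have hle : ∀ i j : Fin 3, i < j → ∀ x ∈ D, ES3.len D (f i) (f j) x ∈ Finset.Icc 1 s := by
    intro i j hij x hx
    rw [Finset.mem_Icc]
    constructor
    · have := ES3.le_len (ES3.cand_single (a := f i) (b := f j) hx)
      simpa using this
    · by_contra h
      obtain ⟨S, hS, hcard⟩ := ES3.exists_len (a := f i) (b := f j) hx
      have h2 : s + 1 ≤ S.card := by omega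
      obtain ⟨T, hTS, hT⟩ := Finset.exists_subset_card_eq h2
      obtain ⟨x', hx', y', hy', hxy⟩ := hcon i j hij T (hTS.trans hS.1) hT
      have := hS.2.2.2 x' (hTS hx') y' (hTS hy')
      rcases hxy with h3 | h3
      · have := this.mp h3.1
        omega
      · have := this.mpr h3.2
        omega
  let g : α → ℕ × ℕ × ℕ := fun x =>
    (ES3.len D (f 0) (f 1) x, ES3.len D (f 0) (f 2) x, ES3.len D (f 1) (f 2) x)
  have hmaps : ∀ x ∈ D, g x ∈ Finset.Icc 1 s ×ˢ (Finset.Icc 1 s ×ˢ Finset.Icc 1 s) := by
    intro x hx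
    simp only [g, Finset.mem_product]
    exact ⟨hle 0 1 (by decide) x hx, hle 0 2 (by decide) x hx, hle 1 2 (by decide) x hx⟩
  have hcard : (Finset.Icc 1 s ×ˢ (Finset.Icc 1 s ×ˢ Finset.Icc 1 s)).card < D.card := by
    rw [Finset.card_product, Finset.card_product, Nat.card_Icc]
    calc (s + 1 - 1) * ((s + 1 - 1) * (s + 1 - 1)) = s ^ 3 := by
          rw [Nat.add_sub_cancel]; ring
      _ < D.card := hD
  obtain ⟨x, hx, y, hy, hxy, hg⟩ := Finset.exists_ne_map_eq_of_card_lt_of_maps_to hcard hmaps
  simp only [g, Prod.mk.injEq] at hg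
  have hne : ∀ i : Fin 3, f i x ≠ f i y := fun i h => hxy (hinj i hx hy h)
  have key : ∀ i j : Fin 3, ES3.len D (f i) (f j) x = ES3.len D (f i) (f j) y →
      ¬ ((f i x < f i y) ↔ (f j x < f j y)) := by
    intro i j he hiff
    rcases lt_or_gt_of_ne (hne i) with h | h
    · have := ES3.len_lt hx hy h (hiff.mp h)
      omega
    · have h3 : f j y < f j x := by
        rcases lt_or_gt_of_ne (hne j) with h4 | h4
        · have := hiff.mpr h4
          omega
        · exact h4
      have := ES3.len_lt hy hx h h3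
      omega
  have k1 := key 0 1 hg.1
  have k2 := key 0 2 hg.2.1
  have k3 := key 1 2 hg.2.2
  tauto

end Pool.Tw
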